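import Pool.Agent.Work.MP_959bfa_wn.Interface2

/-! Block BOOT2 (helper17) -/

namespace Wn

namespace B2

theorem nets_mono {F F' μ : ℝ} (h : F ≤ F') (hN : Nets F μ) : Nets F' μ := by
  intro n k P hk hn
  obtain ⟨Z, hZ, hR⟩ := hN n k P hk hn
  exact ⟨Z, hZ.trans (mul_le_mul_of_nonneg_right h (by positivity)), hR⟩

theorem lg_nonneg {x : ℝ} (hx : 0 ≤ x) : 0 ≤ Real.log (1 + x) := Real.log_nonneg (by linarith)

theorem lg_le {x : ℝ} (hx : 0 ≤ x) : Real.log (1 + x) ≤ x := by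
  have := Real.log_le_sub_one_of_pos (show 0 < 1 + x by linarith)
  linarith

theorem lg_shift {x y : ℝ} (hx : 0 ≤ x) (hy : 0 ≤ y) (h : y ≤ 2 + x) :
    Real.log (1 + y) ≤ 2 + Real.log (1 + x) := by
  have h3 : Real.log 3 ≤ 2 := by
    have := Real.log_le_sub_one_of_pos (show (0 : ℝ) < 3 by norm_num)
    linarith
  have h1 : Real.log (1 + y) ≤ Real.log (3 * (1 + x)) :=
    Real.log_le_log (by linarith) (by linarith)
  rw [Real.log_mul (by norm_num) (by linarith)] at h1
  linarith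

theorem step {K : ℝ} (hK : 1 ≤ K)
    (h : ∀ F μ k0 : ℝ, 1 ≤ F → 1 ≤ μ → K ≤ k0 → K * Real.log F ≤ k0 →
      K * Real.log (1 + Real.log (1 + Real.log μ)) ≤ k0 → Nets F (2 * μ) → Nets (6 * k0) μ)
    {F μ : ℝ} (hF : 1 ≤ F) (hμ : 1 ≤ μ) (hN : Nets F (2 * μ)) :
    Nets (6 * (K * (1 + Real.log F + Real.log (1 + Real.log (1 + Real.log μ))))) μ := by
  have h1 : 0 ≤ Real.log F := Real.log_nonneg hF
  have h2 : 0 ≤ Real.log μ := Real.log_nonneg hμ
  have h3 := lg_nonneg (lg_nonneg h2)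
  have hK0 : 0 ≤ K := by linarith
  refine h F μ _ hF hμ ?_ ?_ ?_ hN
  · have : K * 1 ≤ K * (1 + Real.log F + Real.log (1 + Real.log (1 + Real.log μ))) :=
      mul_le_mul_of_nonneg_left (by linarith) hK0
    linarith
  · exact mul_le_mul_of_nonneg_left (by linarith) hK0
  · exact mul_le_mul_of_nonneg_left (by linarith) hK0

end B2

open B2 in
theorem BOOT2 (h1 : stmt_GRID) (h2 : stmt_ONE2) : stmt_BOOT2 := by
  obtain ⟨K, hK, hone⟩ := h2
  have hK0 : 0 < K := by linarith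
  have hstep := fun {F μ : ℝ} => step (F := F) (μ := μ) hK hone
  have hlogK : 0 ≤ Real.log (36 * K) := Real.log_nonneg (by linarith)
  obtain ⟨A, hA⟩ : ∃ A, A = 3 + Real.log (36 * K) := ⟨_, rfl⟩
  have hA3 : 3 ≤ A := by linarith
  have hKA : 1 ≤ 6 * K * A := by nlinarith
  have hlogA : 0 ≤ Real.log (6 * K * A) := Real.log_nonneg hKA
  refine ⟨6 * K * (3 + Real.log (6 * K * A)), by positivity, ?_⟩
  intro μ hμ
  obtain ⟨L, hL⟩ : ∃ L, L = Real.log μ := ⟨_, rfl⟩
  have hL0 : 0 ≤ L := by rw [hL]; exact Real.log_nonneg hμ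
  have hμ0 : 0 < μ := by linarith
  have hl2 : Real.log 2 ≤ 1 := by
    have := Real.log_two_lt_d9
    linarith
  have hl4 : Real.log 4 ≤ 2 := by
    have : Real.log 4 = 2 * Real.log 2 := by
      rw [show (4 : ℝ) = 2 ^ 2 by norm_num, Real.log_pow]
      norm_num
    linarith
  have hl8 : Real.log 8 ≤ 3 := by
    have : Real.log 8 = 3 * Real.log 2 := by
      rw [show (8 : ℝ) = 2 ^ 3 by norm_num, Real.log_pow]
      norm_num
    linarith
  obtain ⟨p, hp⟩ : ∃ p, p = Real.log (1 + L) := ⟨_, rfl⟩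
  obtain ⟨q, hq⟩ : ∃ q, q = Real.log (1 + p) := ⟨_, rfl⟩
  have hp0 : 0 ≤ p := by rw [hp]; exact lg_nonneg hL0
  have hq0 : 0 ≤ q := by rw [hq]; exact lg_nonneg hp0
  have hpL : p ≤ L := by rw [hp]; exact lg_le hL0
  have hqp : q ≤ p := by rw [hq]; exact lg_le hp0
  have hL3 : ∀ c : ℝ, 1 ≤ c → Real.log c ≤ 2 →
      Real.log (1 + Real.log (1 + Real.log (c * μ))) ≤ 2 + q := by
    intro c hc1 hc2
    have e1 : Real.log (c * μ) ≤ 2 + L := by
      rw [Real.log_mul (by linarith) hμ0.ne', hL]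
      linarith
    have e0 : 0 ≤ Real.log (c * μ) := Real.log_nonneg (by nlinarith)
    have e2 := lg_shift hL0 e0 e1
    rw [← hp] at e2
    have e3 := lg_shift hp0 (lg_nonneg e0) e2
    rwa [← hq] at e3
  -- first step
  have n0 : Nets (8 * μ) (2 * (4 * μ)) := by
    have := h1 (8 * μ) (by linarith)
    rwa [show 2 * (4 * μ) = 8 * μ by ring]
  have n1 := hstep (F := 8 * μ) (μ := 4 * μ) (by linarith) (by linarith) n0
  have b1 : 6 * (K * (1 + Real.log (8 * μ) +
      Real.log (1 + Real.log (1 + Real.log (4 * μ))))) ≤ 36 * K * (1 + L) := by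
    have e1 : Real.log (8 * μ) ≤ 3 + L := by
      rw [Real.log_mul (by norm_num) hμ0.ne', hL]
      linarith
    have e2 := hL3 4 (by norm_num) hl4
    have e5 : K * (1 + Real.log (8 * μ) + Real.log (1 + Real.log (1 + Real.log (4 * μ)))) ≤
        K * (6 * (1 + L)) := mul_le_mul_of_nonneg_left (by linarith) hK0.le
    linarith
  have n1' := nets_mono b1 n1
  -- second step
  have hF1 : 1 ≤ 36 * K * (1 + L) := by nlinarith
  have n1'' : Nets (36 * K * (1 + L)) (2 * (2 * μ)) := by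
    rwa [show 2 * (2 * μ) = 4 * μ by ring]
  have n2 := hstep (F := 36 * K * (1 + L)) (μ := 2 * μ) hF1 (by linarith) n1''
  have b2 : 6 * (K * (1 + Real.log (36 * K * (1 + L)) +
      Real.log (1 + Real.log (1 + Real.log (2 * μ))))) ≤ 6 * K * A * (1 + p) := by
    have e1 : Real.log (36 * K * (1 + L)) = Real.log (36 * K) + p := by
      rw [Real.log_mul (by positivity) (by positivity), hp]
    have e2 := hL3 2 (by norm_num) (by linarith)
    have e5 : 1 + Real.log (36 * K * (1 + L)) +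
        Real.log (1 + Real.log (1 + Real.log (2 * μ))) ≤ A * (1 + p) := by
      rw [e1]
      have e6 : A + 2 * p ≤ A * (1 + p) := by nlinarith
      linarith
    have e6 := mul_le_mul_of_nonneg_left e5 hK0.le
    linarith
  have n2' := nets_mono b2 n2
  -- third step
  have hF2 : 1 ≤ 6 * K * A * (1 + p) := by nlinarith
  have n3 := hstep (F := 6 * K * A * (1 + p)) (μ := μ) hF2 hμ n2'
  rw [← hL, ← hp, ← hq] at n3
  rw [← hL, ← hp, ← hq]
  refine nets_mono ?_ n3
  have e1 : Real.log (6 * K * A * (1 + p)) = Real.log (6 * K * A) + q := by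
    rw [Real.log_mul (by positivity) (by positivity), hq]
  have e3 : 1 + Real.log (6 * K * A * (1 + p)) + q ≤ (3 + Real.log (6 * K * A)) * (1 + q) := by
    rw [e1]
    nlinarith [mul_nonneg hlogA hq0]
  have e4 := mul_le_mul_of_nonneg_left e3 hK0.le
  linarith

end Wn
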