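import Pool.Agent.Work.MP_959bfa_wn.Interface

/-! Block BOOT (helper17) -/

namespace Wn

theorem nets_mono {F F' μ : ℝ} (h : F ≤ F') (hN : Nets F μ) : Nets F' μ := by
  intro n k P hk hn
  obtain ⟨Z, hZ, hR⟩ := hN n k P hk hn
  exact ⟨Z, hZ.trans (mul_le_mul_of_nonneg_right h (by positivity)), hR⟩

theorem boot_step {K : ℝ} (hK : 1 ≤ K)
    (h : ∀ F μ k0 : ℝ, 1 ≤ F → 1 ≤ μ → K ≤ k0 → K * Real.log F ≤ k0 →
      K * Real.log (1 + Real.log μ) ≤ k0 ^ 2 → Nets F (2 * μ) → Nets (6 * k0) μ)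
    {F μ : ℝ} (hF : 1 ≤ F) (hμ : 1 ≤ μ) (hN : Nets F (2 * μ)) :
    Nets (6 * (K * (1 + Real.log F + Real.sqrt (Real.log (1 + Real.log μ))))) μ := by
  have h1 : 0 ≤ Real.log F := Real.log_nonneg hF
  have h2 : 0 ≤ Real.log μ := Real.log_nonneg hμ
  have h3 : 0 ≤ Real.log (1 + Real.log μ) := Real.log_nonneg (by linarith)
  have h4 : 0 ≤ Real.sqrt (Real.log (1 + Real.log μ)) := Real.sqrt_nonneg _
  have hK0 : 0 ≤ K := by linarith
  refine h F μ _ hF hμ ?_ ?_ ?_ hN
  · have : K * 1 ≤ K * (1 + Real.log F + Real.sqrt (Real.log (1 + Real.log μ))) :=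
      mul_le_mul_of_nonneg_left (by linarith) hK0
    linarith
  · exact mul_le_mul_of_nonneg_left (by linarith) hK0
  · have h5 : Real.sqrt (Real.log (1 + Real.log μ)) ^ 2 = Real.log (1 + Real.log μ) :=
      Real.sq_sqrt h3
    have h6 : K * Real.sqrt (Real.log (1 + Real.log μ)) ≤
        K * (1 + Real.log F + Real.sqrt (Real.log (1 + Real.log μ))) :=
      mul_le_mul_of_nonneg_left (by linarith) hK0
    have h7 : (K * Real.sqrt (Real.log (1 + Real.log μ))) ^ 2 ≤
        (K * (1 + Real.log F + Real.sqrt (Real.log (1 + Real.log μ)))) ^ 2 :=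
      pow_le_pow_left₀ (by positivity) h6 2
    refine le_trans ?_ h7
    rw [mul_pow, h5]
    have h8 : K * 1 ≤ K ^ 2 := by nlinarith
    exact mul_le_mul_of_nonneg_right (by linarith) h3

theorem sqrt_le_one_add {x : ℝ} (hx : 0 ≤ x) : Real.sqrt x ≤ 1 + x := by
  rw [Real.sqrt_le_left (by linarith)]
  nlinarith

theorem BOOT (h1 : stmt_GRID) (h2 : stmt_ONE) : stmt_BOOT := by
  obtain ⟨K, hK, hone⟩ := h2
  have hK0 : 0 < K := by linarith
  have hstep := fun {F μ : ℝ} => boot_step (F := F) (μ := μ) hK hone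
  have hlogK : 0 ≤ Real.log (42 * K) := Real.log_nonneg (by linarith)
  obtain ⟨A, hA⟩ : ∃ A, A = 3 + Real.log (42 * K) := ⟨_, rfl⟩
  have hA3 : 3 ≤ A := by linarith
  have hKA : 1 ≤ 6 * K * A := by nlinarith
  have hlogA : 0 ≤ Real.log (6 * K * A) := Real.log_nonneg hKA
  refine ⟨6 * K * (4 + Real.log (6 * K * A)), by positivity, ?_⟩
  intro μ hμ
  obtain ⟨L, hL⟩ : ∃ L, L = Real.log μ := ⟨_, rfl⟩
  have hL0 : 0 ≤ L := by rw [hL]; exact Real.log_nonneg hμ
  have hμ0 : 0 < μ := by linarith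
  have hl2 : Real.log 2 ≤ 1 := by
    have := Real.log_two_lt_d9
    linarith
  have hl20 : 0 ≤ Real.log 2 := Real.log_nonneg (by norm_num)
  have hl4 : Real.log 4 ≤ 2 := by
    have : Real.log 4 = 2 * Real.log 2 := by
      rw [show (4 : ℝ) = 2 ^ 2 by norm_num, Real.log_pow]
      norm_num
    linarith
  have hl8 : Real.log 8 ≤ 3 := by
    have : Real.log 8 = 3 * Real.log 2 := by
      rw [show (8 : ℝ) = 2 ^ 3 by norm_num, Real.log_pow]
      norm_num
    linarith
  -- first step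
  have n0 : Nets (8 * μ) (2 * (4 * μ)) := by
    have := h1 (8 * μ) (by linarith)
    rwa [show 2 * (4 * μ) = 8 * μ by ring]
  have n1 := hstep (F := 8 * μ) (μ := 4 * μ) (by linarith) (by linarith) n0
  have b1 : 6 * (K * (1 + Real.log (8 * μ) + Real.sqrt (Real.log (1 + Real.log (4 * μ))))) ≤
      42 * K * (1 + L) := by
    have e1 : Real.log (8 * μ) ≤ 3 + L := by
      rw [Real.log_mul (by norm_num) hμ0.ne', hL]
      linarith
    have e2 : Real.log (4 * μ) ≤ 2 + L := by
      rw [Real.log_mul (by norm_num) hμ0.ne', hL]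
      linarith
    have e20 : 0 ≤ Real.log (4 * μ) := Real.log_nonneg (by linarith)
    have e3 : Real.log (1 + Real.log (4 * μ)) ≤ 2 + L := by
      have := Real.log_le_sub_one_of_pos (show 0 < 1 + Real.log (4 * μ) by linarith)
      linarith
    have e30 : 0 ≤ Real.log (1 + Real.log (4 * μ)) := Real.log_nonneg (by linarith)
    have e4 := sqrt_le_one_add e30
    have e5 : K * (1 + Real.log (8 * μ) + Real.sqrt (Real.log (1 + Real.log (4 * μ)))) ≤
        K * (7 * (1 + L)) := mul_le_mul_of_nonneg_left (by linarith) hK0.le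
    linarith
  have n1' := nets_mono b1 n1
  -- second step
  have hF1 : 1 ≤ 42 * K * (1 + L) := by nlinarith
  have n1'' : Nets (42 * K * (1 + L)) (2 * (2 * μ)) := by
    rwa [show 2 * (2 * μ) = 4 * μ by ring]
  have n2 := hstep (F := 42 * K * (1 + L)) (μ := 2 * μ) hF1 (by linarith) n1''
  obtain ⟨s, hs⟩ : ∃ s, s = Real.sqrt (Real.log (1 + L)) := ⟨_, rfl⟩
  have hs0 : 0 ≤ s := by rw [hs]; exact Real.sqrt_nonneg _
  have hls : 0 ≤ Real.log (1 + L) := Real.log_nonneg (by linarith)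
  have hss : s ^ 2 = Real.log (1 + L) := by rw [hs]; exact Real.sq_sqrt hls
  have b2 : 6 * (K * (1 + Real.log (42 * K * (1 + L)) +
      Real.sqrt (Real.log (1 + Real.log (2 * μ))))) ≤ 6 * K * A * (1 + s) ^ 2 := by
    have e1 : Real.log (42 * K * (1 + L)) = Real.log (42 * K) + s ^ 2 := by
      rw [Real.log_mul (by positivity) (by positivity), hss]
    have e2 : Real.log (2 * μ) ≤ 1 + L := by
      rw [Real.log_mul (by norm_num) hμ0.ne', hL]
      linarith
    have e20 : 0 ≤ Real.log (2 * μ) := Real.log_nonneg (by linarith)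
    have e3 : Real.log (1 + Real.log (2 * μ)) ≤ 1 + s ^ 2 := by
      have e4 : Real.log (1 + Real.log (2 * μ)) ≤ Real.log (2 * (1 + L)) :=
        Real.log_le_log (by linarith) (by linarith)
      have e5 : Real.log (2 * (1 + L)) = Real.log 2 + s ^ 2 := by
        rw [Real.log_mul (by norm_num) (by positivity), hss]
      linarith
    have e30 : 0 ≤ Real.log (1 + Real.log (2 * μ)) := Real.log_nonneg (by linarith)
    have e4 := sqrt_le_one_add e30
    have e5 : 1 + Real.log (42 * K * (1 + L)) + Real.sqrt (Real.log (1 + Real.log (2 * μ))) ≤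
        A * (1 + s) ^ 2 := by
      rw [e1]
      have e6 : A + 2 * s ^ 2 ≤ A * (1 + s) ^ 2 := by nlinarith [mul_nonneg hs0 hs0]
      linarith
    have e6 := mul_le_mul_of_nonneg_left e5 hK0.le
    linarith
  have n2' := nets_mono b2 n2
  -- third step
  have hF2 : 1 ≤ 6 * K * A * (1 + s) ^ 2 := by
    have : 1 ≤ (1 + s) ^ 2 := by nlinarith
    nlinarith
  have n3 := hstep (F := 6 * K * A * (1 + s) ^ 2) (μ := μ) hF2 hμ n2'
  rw [← hL, ← hs] at n3
  rw [← hL, ← hs]
  refine nets_mono ?_ n3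
  have e1 : Real.log (6 * K * A * (1 + s) ^ 2) = Real.log (6 * K * A) + 2 * Real.log (1 + s) := by
    rw [Real.log_mul (by positivity) (by positivity), Real.log_pow]
    norm_num
  have e2 : Real.log (1 + s) ≤ s := by
    have := Real.log_le_sub_one_of_pos (show 0 < 1 + s by linarith)
    linarith
  have e3 : 1 + Real.log (6 * K * A * (1 + s) ^ 2) + s ≤ (4 + Real.log (6 * K * A)) * (1 + s) := by
    rw [e1]
    nlinarith [mul_nonneg hlogA hs0]
  have e4 := mul_le_mul_of_nonneg_left e3 hK0.le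
  linarith

end Wn
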