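import Pool.Agent.Work.MP_959bfa_wn.Interface

/-! Block FIN (helper17) -/

namespace Wn

open Finset

theorem FIN (h : stmt_BOOT) : stmt_FIN := by
  obtain ⟨C, hC, hB⟩ := h
  refine ⟨C, hC, ?_⟩
  intro k hk A
  have hk0 : (0 : ℝ) < k := by exact_mod_cast hk
  by_cases hn : A.card < k
  · refine ⟨∅, ?_, ?_⟩
    · rw [card_empty, Nat.cast_zero]
      have h1 : 0 ≤ Real.sqrt (Real.log (1 + Real.log (1 + A.card / k))) := Real.sqrt_nonneg _
      positivity
    · intro a₁ b₁ a₂ b₂ hc
      exact absurd (hc.trans (card_le_card (fl_subset _ _))) (not_le.2 hn)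
  · push Not at hn
    have hμ : 1 ≤ (A.card : ℝ) / k := by
      rw [le_div_iff₀ hk0, one_mul]
      exact_mod_cast hn
    set P : Fin A.card → ℝ × ℝ := fun i => (A.equivFin.symm i).1 with hP
    obtain ⟨Z, hZ, hR⟩ := hB _ hμ A.card k P hk (by rw [div_mul_cancel₀ _ hk0.ne'])
    refine ⟨Z, hZ.trans ?_, ?_⟩
    · have hl : 0 ≤ Real.log ((A.card : ℝ) / k) := Real.log_nonneg hμ
      have h1 : Real.sqrt (Real.log (1 + Real.log ((A.card : ℝ) / k))) ≤
          Real.sqrt (Real.log (1 + Real.log (1 + (A.card : ℝ) / k))) := by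
        apply Real.sqrt_le_sqrt
        apply Real.log_le_log (by linarith)
        have := Real.log_le_log (show 0 < (A.card : ℝ) / k by linarith)
          (show (A.card : ℝ) / k ≤ 1 + (A.card : ℝ) / k by linarith)
        linarith
      have h2 : C * (1 + Real.sqrt (Real.log (1 + Real.log ((A.card : ℝ) / k)))) *
          ((A.card : ℝ) / k) ≤ C * (1 + Real.sqrt (Real.log (1 + Real.log (1 +
            (A.card : ℝ) / k)))) * ((A.card : ℝ) / k) := by
        apply mul_le_mul_of_nonneg_right _ (by linarith)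
        exact mul_le_mul_of_nonneg_left (by linarith) hC.le
      refine h2.trans (le_of_eq (by ring))
    · intro a₁ b₁ a₂ b₂ hc
      have hcard : k ≤ (inds P ⟨a₁, b₁, a₂, b₂⟩).card := by
        refine hc.trans ?_
        have himg : fl A (fun p => a₁ ≤ p.1 ∧ p.1 ≤ b₁ ∧ a₂ ≤ p.2 ∧ p.2 ≤ b₂) ⊆
            (inds P ⟨a₁, b₁, a₂, b₂⟩).image P := by
          intro p hp
          rw [mem_fl] at hp
          rw [mem_image]
          refine ⟨A.equivFin ⟨p, hp.1⟩, ?_, ?_⟩
          · rw [inds, mem_fl]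
            refine ⟨mem_univ _, ?_⟩
            have e : P (A.equivFin ⟨p, hp.1⟩) = p := by
              rw [hP]
              simp
            rw [e]
            exact hp.2
          · rw [hP]
            simp
        exact (card_le_card himg).trans card_image_le
      obtain ⟨z, hz, h1, h2, h3, h4⟩ := hR ⟨a₁, b₁, a₂, b₂⟩ hcard
      exact ⟨z, hz, h1, h2, h3, h4⟩

end Wn
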